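import Mathlib
import Pool.Agent.MP_74475a_ag.N3.Final3

/-!
Q1 of MP_74475a_ag in three variables, for every colength: `T_max,m(l) < T_max,m'(l)` whenever
`m < m'` are both attained as `m_1` by Borel-fixed ideals of colength `l` in `ℂ[x_1, x_2, x_3]`.
-/

namespace Pool.Agent.Results.MP_74475a_ag.DimThree

open Pool.Agent.MP_74475a_ag Pool.Agent.MP_74475a_ag.N3

theorem result (l m m' : ℕ) (hmm : m < m') (h1 : (TSet 3 m l).Nonempty)
    (h2 : (TSet 3 m' l).Nonempty) :
    IsGreatest (TSet 3 m l) (TMax 3 m l) ∧ IsGreatest (TSet 3 m' l) (TMax 3 m' l) ∧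
      TMax 3 m l < TMax 3 m' l :=
  ⟨isGreatest_TMax (by omega) h1, isGreatest_TMax (by omega) h2, monotone3 hmm h1 h2⟩

end Pool.Agent.Results.MP_74475a_ag.DimThree
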