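import Mathlib
import Pool.Agent.MP_74475a_ag.Range

/-!
Q1 of MP_74475a_ag in every number `N ≥ 3` of variables, in the range `12 N^2 m' ≤ k`:
`T_max,m(l) < T_max,m'(l)` for all `1 ≤ m < m'` and all `l ≥ C(N - 1 + 12 N^2 m', N)`.
In particular, for fixed `N` and fixed `m < m'`, the inequality holds for all but finitely
many `l`.
-/

namespace Pool.Agent.Results.MP_74475a_ag.LinearRange

open Pool.Agent.MP_74475a_ag

theorem result (N m m' l : ℕ) (hN : 3 ≤ N) (hm : 1 ≤ m) (hmm : m < m')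
    (hl : (N - 1 + 12 * N ^ 2 * m').choose N ≤ l) :
    IsGreatest (TSet N m l) (TMax N m l) ∧ IsGreatest (TSet N m' l) (TMax N m' l) ∧
      TMax N m l < TMax N m' l := by
  obtain ⟨r, rfl⟩ := Nat.exists_eq_add_of_le' hN
  have e : r + 3 - 1 = r + 2 := by omega
  rw [e] at hl
  have hlev : ∀ M, 1 ≤ M → M ≤ m' → (TSet (r + 3) M l).Nonempty := by
    intro M h1 h2
    have h3 : nn M (r + 3) M ≤ l := by
      refine (nn_le_choose _ _ _).trans (le_trans ?_ hl)
      apply Nat.choose_le_choose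
      have h5 : 1 ≤ 12 * (r + 3) ^ 2 := Nat.one_le_iff_ne_zero.mpr (by positivity)
      have h4 : 1 * m' ≤ 12 * (r + 3) ^ 2 * m' := Nat.mul_le_mul_right _ h5
      omega
    exact (exists_level (r := r + 1) (m := M) (l := l) (k := M) (by omega) h1 le_rfl h3).1
  exact ⟨isGreatest_TMax (by omega) (hlev m hm hmm.le),
    isGreatest_TMax (by omega) (hlev m' (by omega) le_rfl), range_main hm hmm le_rfl hl⟩

end Pool.Agent.Results.MP_74475a_ag.LinearRange
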