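import Mathlib
import Pool.Agent.MP_74475a_ag.MacroFinal

/-!
Q1 of MP_74475a_ag in every number `N ≥ 3` of variables, at every colength `l`, for separated
classes: with `k` the block index of `l` and `C_N = (5N)^7 2^N`, the inequality
`T_max,m(l) < T_max,m'(l)` holds for all `1 ≤ m < m' ≤ k` with
`C_N k^(N-2) ≤ (k-m)^(N-1) - (k-m')^(N-1)`.
-/

namespace Pool.Agent.Results.MP_74475a_ag.SeparatedClasses

open Pool.Agent.MP_74475a_ag

theorem result (N k l m m' : ℕ) (hN : 3 ≤ N) (hk1 : (N - 1 + k).choose N ≤ l)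
    (hk2 : l < (N + k).choose N) (hm : 1 ≤ m) (hmm : m < m') (hmk : m' ≤ k)
    (hsep : (5 * N) ^ 7 * 2 ^ N * k ^ (N - 2) + (k - m') ^ (N - 1) ≤ (k - m) ^ (N - 1)) :
    IsGreatest (TSet N m l) (TMax N m l) ∧ IsGreatest (TSet N m' l) (TMax N m' l) ∧
      TMax N m l < TMax N m' l := by
  obtain ⟨r, rfl⟩ := Nat.exists_eq_add_of_le' hN
  have e1 : r + 3 - 1 = r + 2 := by omega
  have e2 : r + 3 - 2 = r + 1 := by omega
  rw [e1] at hk1 hsep
  rw [e2] at hsep
  have hlev : ∀ M, 1 ≤ M → M ≤ k → (TSet (r + 3) M l).Nonempty := by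
    intro M h1 h2
    have h3 : nn M (r + 3) M ≤ l := by
      refine (nn_le_choose _ _ _).trans (le_trans ?_ hk1)
      exact Nat.choose_le_choose _ (by omega)
    exact (exists_level (r := r + 1) (m := M) (l := l) (k := M) (by omega) h1 le_rfl h3).1
  exact ⟨isGreatest_TMax (by omega) (hlev m hm (by omega)),
    isGreatest_TMax (by omega) (hlev m' (by omega) hmk),
    main_separated hm hmm hmk hk1 hk2 hsep⟩

end Pool.Agent.Results.MP_74475a_ag.SeparatedClasses
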