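import Mathlib
import Pool.Agent.MP_74475a_ag.Main

/-!
Q1 of MP_74475a_ag at the colengths `l = dim A / ((x_1^M) + 𝔪^k)`, `1 ≤ M ≤ k`, in every
number `N ≥ 3` of variables: `T_max,m(l) < T_max,M(l)` for every `m < M`, with the exact value
of `T_max,M(l)`. For `M = k` this is the colength of `𝔪^k`, every Borel-fixed ideal of this
colength has `m_1 ≤ k`, and the inequality is the one of Briançon and Iarrobino.
-/

namespace Pool.Agent.Results.MP_74475a_ag.SpecialColengths

open Pool.Agent.MP_74475a_ag

theorem result (N M k l : ℕ) (hN : 3 ≤ N) (hM : 1 ≤ M) (hMk : M ≤ k)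
    (hl : l + (N + k - 1 - M).choose N = (N + k - 1).choose N) :
    IsGreatest (TSet N M l) (TMax N M l) ∧
    (∀ m, m < M → (TSet N m l).Nonempty →
      IsGreatest (TSet N m l) (TMax N m l) ∧ TMax N m l < TMax N M l) ∧
    TMax N M l + (N + M - 2).choose N =
      ((N + k - 2).choose (N - 1) - (N + k - 2 - M).choose (N - 1)) *
        ((N + k - 1).choose (N - 1) - (N + k - 1 - M).choose (N - 1)) + l := by
  obtain ⟨r, rfl⟩ := Nat.exists_eq_add_of_le' (show 2 ≤ N by omega)
  have hr : 1 ≤ r := by omega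
  have e0 : nn M (r + 2) k = l := by
    have h1 := nn_choose M (r + 1) k
    have e1 : r + 2 + k - 1 = r + 1 + k := by omega
    rw [e1] at hl
    change nn M (r + 2) k + (r + 1 + k - M).choose (r + 2) = (r + 1 + k).choose (r + 2) at h1
    omega
  obtain ⟨h1, h2⟩ := main hr hM hMk
  rw [e0] at h1 h2
  have hne : (TSet (r + 2) M l).Nonempty := ⟨_, h1.1⟩
  have hG := isGreatest_TMax (N := r + 2) (by omega) hne
  have hT : TMax (r + 2) M l = bst M r k := hG.unique h1
  refine ⟨hG, ?_, ?_⟩
  · intro m hm hne'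
    refine ⟨isGreatest_TMax (by omega) hne', ?_⟩
    rw [hT]
    exact h2 m hm hne'
  · rw [hT]
    have h3 := bst_identity M r k
    have e3 : min k (M - 1) = M - 1 := by omega
    rw [e3, e0] at h3
    have h4 := nn_choose M (r + 1) (M - 1)
    have h5 := nn_choose M r k
    have h6 := nn_choose M r (k + 1)
    have e4 : (r + 1 + (M - 1) - M).choose (r + 2) = 0 :=
      Nat.choose_eq_zero_of_lt (by omega)
    change nn M (r + 2) (M - 1) + (r + 1 + (M - 1) - M).choose (r + 2) =
      (r + 1 + (M - 1)).choose (r + 2) at h4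
    rw [e4, Nat.add_zero] at h4
    have e5 : r + 2 + M - 2 = r + 1 + (M - 1) := by omega
    have e6 : r + 2 + k - 2 = r + k := by omega
    have e7 : r + 2 + k - 1 = r + (k + 1) := by omega
    have e8 : r + 2 - 1 = r + 1 := by omega
    rw [e5, e6, e7, e8, ← h4]
    have e9 : (r + k).choose (r + 1) - (r + k - M).choose (r + 1) = nn M (r + 1) k := by omega
    have e10 : (r + (k + 1)).choose (r + 1) - (r + (k + 1) - M).choose (r + 1) =
        nn M (r + 1) (k + 1) := by omega
    rw [e9, e10]
    exact h3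

end Pool.Agent.Results.MP_74475a_ag.SpecialColengths
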